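import Pool.Agent.H.MP_fedac3_al.I

set_option maxHeartbeats 400000

namespace Pool.Agent.H.MP_ddb4d7_al

open Subgroup Pool.Agent.Lib.Fitting Pool.Agent.H.MP_fedac3_al
open scoped commutatorElement

theorem mnil {G : Type} [Group G] [Finite G] {k : ℕ} (h : X k G) :
    ∃ (N : Subgroup G) (_ : N.Normal), Group.IsNilpotent N ∧ Group.IsNilpotent (G ⧸ N) := by
  obtain ⟨P, Q, h⟩ := h
  have := h.normal
  refine ⟨P, this, h.p3.isNilpotent, (h.p2.of_surjective ((QuotientGroup.mk' P).comp Q.subtype)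
    fun g => ?_).isNilpotent⟩
  obtain ⟨g, rfl⟩ := QuotientGroup.mk_surjective g
  obtain ⟨y, hy, q, hq, rfl⟩ := h.dec (mem_top g)
  exact ⟨⟨q, hq⟩, by simp [(QuotientGroup.eq_one_iff y).2 hy]⟩

theorem solv {G : Type} [Group G] [Finite G] {k : ℕ} (h : X k G) : Group.IsSolvable G := by
  obtain ⟨N, _, _, _⟩ := mnil h
  exact Group.isSolvable_of_ker_le_range N.subtype (QuotientGroup.mk' N) (by simp)

theorem frat {G : Type} [Group G] {a b : G} (h : ⁅a, b⁆ ∈ center G) : ⁅a, b⁆ ∈ frattini G := by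
  simp only [frattini, Order.radical, mem_iInf]
  refine fun M hM => by_contra fun n => n ?_
  have := hM.2 (M ⊔ center G) (left_lt_sup.2 fun e => n (e h))
  obtain ⟨u, hu, c, hc, rfl⟩ := mem_sup_of_normal_right.1 (this ▸ mem_top a)
  obtain ⟨v, hv, d, hd, rfl⟩ := mem_sup_of_normal_right.1 (this ▸ mem_top b)
  rw [dropL (mem_center_iff.1 hc _).symm, dropR (mem_center_iff.1 hd _)]
  exact commutator_le_self M (commutator_mem_commutator hu hv)

variable {K : Type} [Field K] [Finite K] [CharP K 3]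

theorem bad' {k : ℕ} (h : X k (Δ K)) : Nat.card K ≤ k := by
  have h3 : (3 : K) = 0 := CharP.cast_eq_zero K 3
  obtain ⟨P, Q, h⟩ := X_iff.1 h
  obtain rfl : P = He K := (good.max (h.sup ▸ le_sup_left) h.p3).antisymm (h.max HΔ good.p3)
  obtain ⟨y, hy, q, hq, e⟩ := h.dec (x := ⟨0, 0, 0, -1, -1⟩) rfl
  have d1 : q.e = -1 := by simpa [hy.1] using congrArg Γ.e e
  have d2 : q.f = -1 := by simpa [hy.2] using congrArg Γ.f e
  have a : ∀ b ∈ He K, ∃ r ∈ ⁅He K, Q⁆, r.x = b.x ∧ r.y = b.y := fun b hb =>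
    ⟨_, commutator_mem_commutator (inv_mem hb) hq, by
      simp [commutatorElement_def, d1, d2, hb.1, hb.2]
      exact ⟨by linear_combination -b.x * h3, by linear_combination -b.y * h3⟩⟩
  by_contra n
  obtain ⟨r, hr, r1, -⟩ := a ⟨1, 0, 0, 1, 1⟩ ⟨rfl, rfl⟩
  obtain ⟨s, hs, s1, s2⟩ := a ⟨0, 1, 0, 1, 1⟩ ⟨rfl, rfl⟩
  have b : ∀ x ∈ ⁅He K, Q⁆, cs x (He K) ⊆ cs x ⁅He K, Q⁆ := by
    rintro x hx _ ⟨b, hb, rfl⟩
    obtain ⟨r, hr, r1, r2⟩ := a b hb
    exact ⟨r, hr, by simp only [cm (h.nor hx) (h.nor hr), cm (h.nor hx) hb, r1, r2]⟩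
  have : closure (Sm k ⁅He K, Q⁆) ≤ centralizer {s} := (closure_le _).2 fun x hx =>
    mem_centralizer_singleton_iff.2 (zc' (h.nor hx.1) ((cs_all (h.nor hx.1)).resolve_right
      fun e => n (zcard.ge.trans ((Set.ncard_le_ncard (e ▸ b x hx.1)).trans hx.2)))
      (HΔ (h.nor hs))).symm
  have := congrArg Γ.z ((cm (h.nor hr) (h.nor hs)).symm.trans
    (commutatorElement_eq_one_iff_mul_comm.2 (mem_centralizer_singleton_iff.1
      (this (h.blk.c4 hr)))))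
  simp [r1, s1, s2] at this

omit [Finite K] in
theorem eHe : He K ≤ ⁅He K, Co K⁆ := fun g hg => by
  have h3 : (3 : K) = 0 := CharP.cast_eq_zero K 3
  have a : ∀ x y : K, x * y = 0 → (⟨x, y, 0, 1, 1⟩ : Γ K) ∈ ⁅He K, Co K⁆ := fun x y h => by
    convert commutator_mem_commutator (H₁ := He K) (H₂ := Co K) (g₁ := ⟨-x, -y, 0, 1, 1⟩)
      (g₂ := ⟨0, 0, 0, -1, -1⟩) ⟨rfl, rfl⟩ ⟨rfl, rfl, rfl, rfl⟩ using 1
    simp [commutatorElement_def, h]
    exact ⟨by linear_combination x * h3, by linear_combination y * h3⟩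
  convert mul_mem (mul_mem (commutator_le_self _ (commutator_mem_commutator (a g.z 0 (by simp))
    (a 0 1 (by simp)))) (a 0 g.y (by simp))) (a g.x 0 (by simp)) using 1
  rw [cm ⟨rfl, rfl⟩ ⟨rfl, rfl⟩]
  ext <;> simp [hg.1, hg.2]

/-- central subgroups -/
def Zs (A : AddSubgroup K) : Subgroup (Γ K) where
  carrier := {g | g.x = 0 ∧ g.y = 0 ∧ g.z ∈ A ∧ g.e = 1 ∧ g.f = 1}
  one_mem' := ⟨rfl, rfl, zero_mem _, rfl, rfl⟩
  mul_mem' := fun {a b} ⟨a1, a2, a3, a4, a5⟩ ⟨b1, b2, b3, b4, b5⟩ => by simp [*, add_mem]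
  inv_mem' := fun {a} ⟨a1, a2, a3, a4, a5⟩ => by simp [*]

instance (A : AddSubgroup K) : (Zs A).Normal := ⟨fun a ⟨a1, a2, a3, a4, a5⟩ g => by
  refine ⟨by simp [*, smul_smul], by simp [*, smul_smul], ?_, by simp [*], by simp [*]⟩
  convert zsmul_mem a3 (g.e * g.f : ℤˣ) using 1
  rcases Int.units_eq_one_or g.e with h | h <;> rcases Int.units_eq_one_or g.f with h' | h' <;>
    simp [*] <;> ring⟩

theorem quot {A : AddSubgroup K} (hA : A ≠ ⊤) :
    Good (QuotientGroup.mk' (Zs A) '' Set.range fun z : K => (⟨0, 0, z, 1, 1⟩ : Γ K)).ncard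
      ((Δ K).map (QuotientGroup.mk' _)) ((He K).map (QuotientGroup.mk' _))
      ((Co K).map (QuotientGroup.mk' (Zs A))) := by
  set π := QuotientGroup.mk' (Zs A)
  have g := good (K := K)
  have e : ⁅He K, Co K⁆ = He K := g.nor.antisymm eHe
  have c : ∀ a, cs (π a) ((He K).map π) = π '' cs a (He K) := fun a => by
    simp only [cs, coe_map, Set.image_image, map_commutatorElement]
  have z : ∀ {a b}, a ∈ He K → a.x = 0 ∧ a.y = 0 → b ∈ (Δ K).map π → Commute b (π a) := by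
    rintro a _ ha h ⟨b, hb, rfl⟩
    exact (zc' ha h hb).map π
  have l : (He K).map π ≤ (Δ K).map π := map_mono HΔ
  refine ⟨by rw [← Subgroup.map_sup, g.sup], ?_, g.p3.map π, g.p2.map π, ?_, ?_⟩ <;>
    rw [← map_commutator, e]
  · refine ⟨?_, ?_, ?_, ?_⟩
    · rw [← map_commutator]
      rintro _ ⟨a, ha, rfl⟩ _ ⟨b, hb, rfl⟩
      exact Commute.map ((e ▸ g.blk).c0 ha b hb) π
    · rintro _ ⟨a, ha, rfl⟩
      exact (cs_all ha).imp (fun h b hb => z ha h (l hb)) fun h => by rw [c, h]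
    · rintro _ ⟨a, ha, rfl⟩
      exact subset_closure ⟨⟨a, ha, rfl⟩, c a ▸ Set.ncard_le_ncard
        (Set.image_mono (cs_sub le_rfl ha))⟩
    · rintro _ ⟨⟨a, ha, rfl⟩, -⟩ _ ⟨⟨b, hb, rfl⟩, -⟩
      rcases cs_all ha with h | h
      · exact .inr (z ha h (l ⟨b, hb, rfl⟩)).symm
      · exact (cs_all hb).symm.imp (fun h' => by rw [c, c, h, h']) fun h' => z hb h' (l ⟨a, ha, rfl⟩)
  · rintro _ ⟨⟨a, ha, rfl⟩, h⟩ b hb
    refine z ha ((cs_all ha).resolve_right fun h' => hA ((AddSubgroup.eq_top_iff' _).2 fun t => ?_))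
      (map_mono (g.sup ▸ le_sup_right) hb)
    obtain ⟨c, hc, e⟩ := h'.ge ⟨t, rfl⟩
    have : π ⁅a, c⁆ = 1 := by
      rw [map_commutatorElement]
      exact commutatorElement_eq_one_iff_mul_comm.2 (h _ ⟨c, hc, rfl⟩).symm
    exact (show ⁅a, c⁆.z = t from congrArg Γ.z e) ▸ ((QuotientGroup.eq_one_iff _).1 this).2.2.1

theorem main : ∃ (G : Type) (_ : Group G) (_ : Finite G) (Z : Subgroup G) (_ : Z.Normal) (k : ℕ),
    1 ≤ k ∧ X 9 G ∧ Z ≤ center G ⊓ frattini G ∧ X k (G ⧸ Z) ∧ ¬ X k G := by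
  let K := GaloisField 3 2
  have c : Nat.card K = 9 := GaloisField.card 3 2 two_ne_zero
  let A := AddSubgroup.zmultiples (1 : K)
  have hA : A ≠ ⊤ := fun e => by
    have := congrArg (fun B : AddSubgroup K => Nat.card B) e
    simp only [A, Nat.card_zmultiples, AddSubgroup.card_top, c, 
      CharP.eq K (CharP.addOrderOf_one K) (inferInstance : CharP K 3)] at this
    omega
  let π := QuotientGroup.mk' (Zs A)
  have k1 : 1 ≤ (π '' Set.range fun z : K => (⟨0, 0, z, 1, 1⟩ : Γ K)).ncard :=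
    (Set.ncard_pos (Set.toFinite _)).2 ⟨_, _, ⟨0, rfl⟩, rfl⟩
  refine ⟨Δ K, inferInstance, inferInstance, (π.comp (Δ K).subtype).ker, inferInstance, _, k1, c ▸ X_iff.2 ⟨_, _, good⟩,
    fun g hg => ?_, ?_, fun h => ?_⟩
  · obtain ⟨g1, g2, -, g4, g5⟩ : g.1 ∈ Zs A := (QuotientGroup.eq_one_iff _).1 hg
    have a : g ∈ center (Δ K) := mem_center_iff.2 fun b => Subtype.ext (zc' ⟨g4, g5⟩ ⟨g1, g2⟩ b.2)
    have e : g = ⁅(⟨⟨g.1.z, 0, 0, 1, 1⟩, rfl⟩ : Δ K), ⟨⟨0, 1, 0, 1, 1⟩, rfl⟩⁆ := Subtype.ext (by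
      rw [show ∀ a b : Δ K, ⁅a, b⁆.1 = ⁅a.1, b.1⁆ from fun _ _ => rfl, cm ⟨rfl, rfl⟩ ⟨rfl, rfl⟩]
      ext <;> simp [*])
    exact ⟨a, e ▸ frat (e ▸ a)⟩
  · refine (fit_X k1).1 _ _
      ⟨(QuotientGroup.quotientKerEquivRange _).symm⟩ (X_iff.2 ?_)
    rw [MonoidHom.range_comp, range_subtype]
    exact ⟨_, _, quot hA⟩
  · have := Set.injOn_of_ncard_image_eq ((Set.ncard_image_le (Set.toFinite _)).antisymm
      (zcard.le.trans (bad' h))) (Set.toFinite _) ⟨0, rfl⟩ ⟨1, rfl⟩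
      (QuotientGroup.eq.2 (by simp [Zs, A]))
    exact zero_ne_one (congrArg Γ.z this)

end Pool.Agent.H.MP_ddb4d7_al
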